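import Mathlib
import Pool.Agent.H648R2.T.Final

set_option autoImplicit false

namespace Pool.Agent.Results.MP_5bdb63_lc.StackAutomata

open Pool.Agent.H648R2.T

/-- The digits of an algebraic irrational number cannot be computed with small memory bandwidth.

Part 1 is about stack automata (`StackAutomaton`) with integer weights which read the digits of
`n` in some base, in either direction and a fixed number of times.  If an algebraic irrational
number `ξ` is the sum of a rational combination of products of numbers `∑ F(n) b^(-n)`, where each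
`F` is computed by such an automaton, and of a number `∑ G(n) b^(-n)`, where `G` has polynomial
growth, and if in the `i`-th product the product of the costs of the automata is less than the
base `k i` in which they read `n` (this holds for all multi-counter automata, whose cost is `1`),
then for every `C` and every large `m` no two windows of length `m` of `G` which start at distinct
places `≤ C m` are equal.  Part 2 is the case `G = 0`: no algebraic irrational number is a rational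
combination of such products.  Part 3 is the general principle: the same holds for all sequences
`F` of polynomial growth such that the rank of the matrix `F (W k^r + u)`, with rows `W < k^s` and
columns `u < k^r`, is at most `k^s / T` for all large `r`, for any `T` and a suitable `s`. -/
theorem result :
    (∀ b : ℕ, 2 ≤ b → ∀ ξ : ℝ, IsAlgebraic ℚ ξ → Irrational ξ →
      ∀ (ι : Type) [Fintype ι] (k : ι → ℕ), (∀ i, 2 ≤ k i) →
      ∀ M : ι → List StackAutomaton, (∀ i, ((M i).map StackAutomaton.cost).prod < k i) →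
      ∀ (R : ι → ℚ) (G : ℕ → ℤ), (∃ K : ℕ, ∀ n : ℕ, |G n| ≤ (K : ℤ) * ((n : ℤ) + 1) ^ K) →
      ξ = ∑ i, (R i : ℝ) *
          ((M i).map fun A => ∑' n, (A.out (k i) n : ℝ) / (b : ℝ) ^ n).prod +
        ∑' n, (G n : ℝ) / (b : ℝ) ^ n →
      ∀ C : ℕ, ∃ N : ℕ, ∀ m, N ≤ m → ∀ s t : ℕ, s < t → t ≤ C * m →
        ∃ i, i < m ∧ G (s + i) ≠ G (t + i)) ∧
    (∀ b : ℕ, 2 ≤ b → ∀ ξ : ℝ, IsAlgebraic ℚ ξ → Irrational ξ →
      ∀ (ι : Type) [Fintype ι] (k : ι → ℕ), (∀ i, 2 ≤ k i) →
      ∀ M : ι → List StackAutomaton, (∀ i, ((M i).map StackAutomaton.cost).prod < k i) →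
      ∀ R : ι → ℚ, ξ ≠ ∑ i, (R i : ℝ) *
          ((M i).map fun A => ∑' n, (A.out (k i) n : ℝ) / (b : ℝ) ^ n).prod) ∧
    (∀ b : ℕ, 2 ≤ b → ∀ ξ : ℝ, IsAlgebraic ℚ ξ → Irrational ξ →
      ∀ (ι : Type) [Fintype ι] (k : ι → ℕ), (∀ i, 2 ≤ k i) →
      ∀ F : ι → ℕ → ℤ, (∀ i, ∃ K : ℕ, ∀ n : ℕ, |F i n| ≤ (K : ℤ) * ((n : ℤ) + 1) ^ K) →
      (∀ i, ∀ T : ℕ, ∃ s r0 : ℕ, ∀ r, r0 ≤ r → T * ((Matrix.of fun (W : Fin (k i ^ s))
        (u : Fin (k i ^ r)) => (F i ((W : ℕ) * k i ^ r + (u : ℕ)) : ℚ)).rank + 1) ≤ k i ^ s) →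
      ∀ (R : ι → ℚ) (G : ℕ → ℤ), (∃ K : ℕ, ∀ n : ℕ, |G n| ≤ (K : ℤ) * ((n : ℤ) + 1) ^ K) →
      ξ = ∑ i, (R i : ℝ) * ∑' n, (F i n : ℝ) / (b : ℝ) ^ n + ∑' n, (G n : ℝ) / (b : ℝ) ^ n →
      ∀ C : ℕ, ∃ N : ℕ, ∀ m, N ≤ m → ∀ s t : ℕ, s < t → t ≤ C * m →
        ∃ i, i < m ∧ G (s + i) ≠ G (t + i)) := by
  refine ⟨?_, ?_, ?_⟩
  · intro b hb ξ hξ hirr ι _ k hk M hM R G hG h C
    exact main_machines b hb ξ hξ hirr k hk M hM R G (polyB_iff hG) h C
  · intro b hb ξ hξ hirr ι _ k hk M hM R h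
    obtain ⟨N, hN⟩ := main_machines b hb ξ hξ hirr k hk M hM R (fun _ => 0)
      (PolyB.of_bdd (B := 0) (fun n => by simp)) (by rw [h]; simp [val]) 1
    obtain ⟨i, _, hi⟩ := hN (N + 1) (by omega) 0 1 (by omega) (by omega)
    exact hi rfl
  · intro b hb ξ hξ hirr ι _ k hk F hF hrank R G hG h C
    exact main_series b hb ξ hξ hirr k hk F (fun i => thin_of_matrix (hrank i))
      (fun i => polyB_iff (hF i)) R G (polyB_iff hG) h C

end Pool.Agent.Results.MP_5bdb63_lc.StackAutomata
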